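import Pool.Agent.H92.FracVar

set_option autoImplicit false

namespace Pool.Agent.Results.MP_f9323a_an.VarBound

/-- the fractional average `(2r+1)^{-(1-β)} ∑_{k=-r}^{r} |f(n+k)|` -/
noncomputable def avg (β : ℝ) (f : ℤ → ℝ) (n : ℤ) (r : ℕ) : ℝ :=
  1 / (2 * r + 1 : ℝ) ^ (1 - β) * ∑ k ∈ Finset.Icc (-(r : ℤ)) r, |f (n + k)|

/-- the discrete centered fractional maximal function -/
noncomputable def maxFn (β : ℝ) (f : ℤ → ℝ) (n : ℤ) : ℝ := ⨆ r : ℕ, avg β f n r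

theorem result : ∀ β q : ℝ, 0 < β → β < 1 → q = 1 / (1 - β) → ∃ C : ℝ, ∀ f : ℤ → ℝ,
    (Summable fun n => |f (n + 1) - f n|) → (∃ n, BddAbove (Set.range (avg β f n))) →
    (∀ n, BddAbove (Set.range (avg β f n))) ∧
    (Summable fun n => |maxFn β f (n + 1) - maxFn β f n| ^ q) ∧
    (∑' n, |maxFn β f (n + 1) - maxFn β f n| ^ q) ^ (1 / q) ≤ C * ∑' n, |f (n + 1) - f n| := by
  rintro β q h0 h1 rfl
  exact Pool.Agent.H92.FracVar.main h0 h1

end Pool.Agent.Results.MP_f9323a_an.VarBound
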